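import Pool.Agent.Work.MP_223b32_tl.Interface
import Pool.Agent.Work.MP_223b32_tc.MOD8

/-!
# Block T1-FO: a relation modulo `8`
-/

namespace Pool.Agent.Work.TL.FO

open Finset Polynomial Pool.Agent.Work.MP_223b32_ag Pool.Agent.Work.MP_223b32_ag_56
  Pool.Agent.Work.TC

/-- The relation modulo `8`, for an indexed family. -/
theorem mod8i {ι : Type*} (hRU : Stmt_RU) (ρ : AA →+* Om)
    {q n : ℕ} (hq : Odd q) (Z : Finset ι) (e : ι → ℕ)
    (B W : ι → AA)
    (hW : ∀ z ∈ Z, B z ^ n = 1 + 2 * W z) {K : ℕ} (hK : 0 < K)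
    (hrel : (∏ z ∈ Z, (B z : ℂ) ^ e z) ^ (2 * K) = (q : ℂ) ^ (K * ∑ z ∈ Z, e z)) :
    ∑ z ∈ Z, (e z : Om) * (ρ (W z) + ρ (W z) ^ 2) =
      ((∑ z ∈ Z, e z : ℕ) : Om) * ((kap (q ^ n) : ℕ) : Om) := by
  have c2 : ((2 : AA) : ℂ) = 2 := rfl
  have c4 : ((4 : AA) : ℂ) = 4 := rfl
  have hq0 : (q : ℂ) ≠ 0 := by
    have : q ≠ 0 := hq.pos.ne'
    exact_mod_cast this
  set E : ℕ := ∑ z ∈ Z, e z with hE
  set PP : ℂ := ∏ z ∈ Z, (B z : ℂ) ^ e z with hPi
  set ω : ℂ := PP ^ 2 / (q : ℂ) ^ E with hω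
  have hωK : ω ^ K = 1 := by
    rw [hω, div_pow, ← pow_mul, hrel, ← pow_mul, mul_comm E K, div_self (pow_ne_zero _ hq0)]
  obtain ⟨σ, k, hσ, hQ, hk⟩ := MOD8.kap_spec (q ^ n) hq.pow
  have hσ2 : σ ^ 2 = 1 := by rcases hσ with h | h <;> rw [h] <;> norm_num
  set Y : ι → AA := fun z => W z + W z ^ 2 with hY
  obtain ⟨U, hU⟩ := MOD8.prod_form Z Y e
  obtain ⟨V, hV⟩ := MOD8.pow_form (k : AA) E
  have h1 : ((∏ z ∈ Z, (1 + 4 * Y z) ^ e z : AA) : ℂ) = (PP ^ 2) ^ n := by
    rw [hPi, ← pow_mul, ← prod_pow]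
    push_cast
    refine prod_congr rfl fun z hz => ?_
    have h2 : ((B z ^ n : AA) : ℂ) = ((1 + 2 * W z : AA) : ℂ) := by rw [hW z hz]
    push_cast at h2
    rw [c2] at h2
    rw [← pow_mul, show e z * (2 * n) = n * 2 * e z by ring, pow_mul, pow_mul, h2]
    congr 1
    simp only [hY]
    push_cast
    rw [c4]
    ring
  have h3 : (PP ^ 2) ^ n = ω ^ n * ((q : ℂ) ^ n) ^ E := by
    rw [hω, div_pow, ← pow_mul (q : ℂ) n E, mul_comm n E, pow_mul (q : ℂ) E n,
      div_mul_cancel₀ _ (pow_ne_zero _ (pow_ne_zero _ hq0))]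
  have hQC : (q : ℂ) ^ n = (σ : ℂ) * (1 + 4 * (k : ℂ)) := by exact_mod_cast hQ
  have hV' : ((1 : ℂ) + 4 * (k : ℂ)) ^ E = 1 + 4 * (E * (k : ℂ) + 2 * (V : ℂ)) := by
    have h4 := congrArg (fun x : AA => (x : ℂ)) hV
    push_cast at h4
    exact h4
  have hσC : ((σ : ℂ)) ^ 2 = 1 := by exact_mod_cast hσ2
  set ω' : ℂ := ω ^ n * (σ : ℂ) ^ E with hω'
  have hω'K : ω' ^ (2 * K) = 1 := by
    rw [hω', mul_pow, ← pow_mul ω, show n * (2 * K) = K * (2 * n) by ring, pow_mul ω, hωK,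
      one_pow, ← pow_mul, show E * (2 * K) = 2 * (E * K) by ring, pow_mul, hσC, one_pow, one_mul]
  have hint : IsIntegral ℤ ω' := by
    refine IsIntegral.of_pow (n := 2 * K) (by omega) ?_
    rw [hω'K]
    exact isIntegral_one
  have h5 : ω' * (1 + 4 * (E * (k : ℂ) + 2 * (V : ℂ))) =
      ((1 + 4 * (∑ z ∈ Z, (e z : AA) * Y z + 2 * U) : AA) : ℂ) := by
    rw [← hU, h1, h3, hQC, mul_pow, hV', hω']
    ring
  set S : AA := ∑ z ∈ Z, (e z : AA) * Y z + 2 * U with hS
  set ωA : AA := ⟨ω', hint⟩ with hωA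
  set R : AA := (E : AA) * (k : AA) + 2 * V with hR
  have hRC : (R : ℂ) = E * (k : ℂ) + 2 * (V : ℂ) := by rw [hR]; push_cast; rfl
  have h6 : ω' = 1 + 4 * ((S - R * ωA : AA) : ℂ) := by
    push_cast
    have h7 : ((ωA : AA) : ℂ) = ω' := rfl
    rw [h7]
    push_cast at h5
    rw [← hRC, c4] at h5
    linear_combination h5
  have h8 : ω' = 1 := hRU ω' (2 * K) (by omega) hω'K _ h6
  have h9 : R = S := by
    apply Subtype.ext
    push_cast at h5
    rw [h8, one_mul, ← hRC, c4] at h5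
    have h10 : (4 : ℂ) * (R : ℂ) = 4 * (S : ℂ) := by linear_combination h5
    exact mul_left_cancel₀ (by norm_num) h10
  have h11 := congrArg ρ h9
  have h2 : (2 : Om) = 0 := CharTwo.two_eq_zero
  have hρ2 : ρ 2 = 0 := by rw [map_ofNat]; exact h2
  rw [hR, hS, map_add, map_add, map_mul ρ 2 V, map_mul ρ 2 U, hρ2, zero_mul, zero_mul, add_zero,
    add_zero, map_mul, map_natCast, map_intCast, map_sum] at h11
  have h12 : ((k : ℤ) : Om) = ((kap (q ^ n) : ℕ) : _) := by
    have h13 := (CharP.intCast_eq_intCast Om 2 (a := k)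
      (b := (kap (q ^ n) : ℤ))).2 (by exact_mod_cast hk)
    rw [h13]
    push_cast
    rfl
  rw [h12] at h11
  rw [h11]
  refine sum_congr rfl fun z _ => ?_
  rw [map_mul, map_natCast]
  simp only [hY, map_add, map_pow]

/-- The symmetry of `ZZ`. -/
theorem zz_inv {n g q : ℕ} (hng : n = 2 * g + 1) (r : ℕ → ℕ)
    (hsym : ∀ k, 1 ≤ k → k ≤ g → r (n - k) ≡ r k + eps q [MOD 2]) {z : Om} (hz : z ^ n = 1)
    (hz1 : z ≠ 1) : ZZ n r z⁻¹ = ZZ n r z + (eps q : Om) := by
  have hz0 : z ≠ 0 := by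
    rintro rfl
    rw [zero_pow (by omega)] at hz
    exact zero_ne_one hz
  have hsym' : ∀ k, 1 ≤ k → k < n → (r (n - k) : Om) = (r k : Om) + (eps q : Om) := by
    intro k h1 h2
    by_cases hk : k ≤ g
    · have h3 := hsym k h1 hk
      have h4 := (CharP.natCast_eq_natCast Om 2).2 h3
      push_cast at h4
      exact h4
    · have h3 := hsym (n - k) (by omega) (by omega)
      rw [show n - (n - k) = k by omega] at h3
      have h4 := (CharP.natCast_eq_natCast Om 2).2 h3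
      push_cast at h4
      rw [h4, add_assoc, CharTwo.add_self_eq_zero, add_zero]
  have hgeom : ∑ k ∈ Icc 1 (n - 1), z ^ k = 1 := by
    have h1 : ∑ k ∈ range n, z ^ k = 0 := by
      have h2 := geom_sum_eq hz1 n
      rw [h2, hz, sub_self, zero_div]
    have h3 : range n = insert 0 (Icc 1 (n - 1)) := by
      ext k
      simp only [mem_range, mem_insert, mem_Icc]
      omega
    rw [h3, sum_insert (by simp), pow_zero] at h1
    have h4 : ∑ k ∈ Icc 1 (n - 1), z ^ k = -1 := by linear_combination h1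
    rw [h4, CharTwo.neg_eq]
  have hsplit : ∀ y : Om, ZZ n r y = (r n : Om) + ∑ k ∈ Icc 1 (n - 1), (r k : Om) * y ^ (n - k) := by
    intro y
    have h3 : Icc 1 n = insert n (Icc 1 (n - 1)) := by
      ext k
      simp only [mem_insert, mem_Icc]
      omega
    rw [ZZ, h3, sum_insert (by simp; omega), Nat.sub_self, pow_zero, mul_one]
  have hinv : ∀ k ∈ Icc 1 (n - 1), (r k : Om) * z⁻¹ ^ (n - k) = (r k : Om) * z ^ k := by
    intro k hk
    rw [mem_Icc] at hk
    congr 1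
    have h5 : z ^ (n - k) * z ^ k = 1 := by rw [← pow_add, Nat.sub_add_cancel (by omega), hz]
    rw [inv_pow]
    exact inv_eq_of_mul_eq_one_right h5
  rw [hsplit, hsplit, sum_congr rfl hinv]
  have hrefl : ∑ k ∈ Icc 1 (n - 1), (r k : Om) * z ^ (n - k) =
      ∑ k ∈ Icc 1 (n - 1), (r (n - k) : Om) * z ^ k := by
    refine sum_nbij' (fun k => n - k) (fun k => n - k) ?_ ?_ ?_ ?_ ?_
    · intro k hk
      simp only [mem_Icc] at hk ⊢
      omega
    · intro k hk
      simp only [mem_Icc] at hk ⊢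
      omega
    · intro k hk
      simp only [mem_Icc] at hk
      show n - (n - k) = k
      omega
    · intro k hk
      simp only [mem_Icc] at hk
      show n - (n - k) = k
      omega
    · intro k hk
      simp only [mem_Icc] at hk
      show _ = (r (n - (n - k)) : Om) * z ^ (n - k)
      rw [show n - (n - k) = k by omega]
  have h6 : ∑ k ∈ Icc 1 (n - 1), (r (n - k) : Om) * z ^ k =
      ∑ k ∈ Icc 1 (n - 1), (r k : Om) * z ^ k + (eps q : Om) := by
    have h7 : ∀ k ∈ Icc 1 (n - 1), (r (n - k) : Om) * z ^ k =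
        (r k : Om) * z ^ k + (eps q : Om) * z ^ k := by
      intro k hk
      rw [mem_Icc] at hk
      rw [hsym' k hk.1 (by omega), add_mul]
    rw [sum_congr rfl h7, sum_add_distrib, ← mul_sum, hgeom, mul_one]
  rw [hrefl, h6, add_assoc, add_assoc, CharTwo.add_self_eq_zero, add_zero]

end Pool.Agent.Work.TL.FO

namespace Pool.Agent.Work.TL

open Finset Polynomial Pool.Agent.Work.MP_223b32_ag Pool.Agent.Work.MP_223b32_ag_56
  Pool.Agent.Work.TC FO

theorem stmt_FO (hRU : Stmt_RU) : Stmt_FO := by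
  classical
  intro n g η q ρ σ r ζ al be w v h P hP hRel
  obtain ⟨M, hM, hTh⟩ := hRel
  have hq0 : (q : ℂ) ≠ 0 := by
    have : q ≠ 0 := h.odd_q.pos.ne'
    exact_mod_cast this
  have hmul : ∀ i, (al i : ℂ) * (be i : ℂ) = q := by
    intro i
    have h1 := congrArg (fun x : AA => (x : ℂ)) (h.mul i)
    push_cast at h1
    exact h1
  have hal0 : ∀ i, (al i : ℂ) ≠ 0 := by
    intro i h0
    have h1 := hmul i
    rw [h0, zero_mul] at h1
    exact hq0 h1.symm
  have hbe0 : ∀ i, (be i : ℂ) ≠ 0 := by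
    intro i h0
    have h1 := hmul i
    rw [h0, mul_zero] at h1
    exact hq0 h1.symm
  set p : ℕ → ℤ := fun i => P.coeff i with hp
  set B : ℕ → AA := fun i => if 0 ≤ p i then al i else be i with hB
  set W : ℕ → AA := fun i => if 0 ≤ p i then w i else v i with hW
  set e : ℕ → ℕ := fun i => (p i).natAbs with he
  have hBW : ∀ z ∈ range g, B z ^ n = 1 + 2 * W z := by
    intro i _
    simp only [hB, hW]
    split_ifs
    · exact h.pow_al i
    · exact h.pow_be i
  have hterm : ∀ i, ((al i : ℂ) ^ 2 / q) ^ p i = ((B i : ℂ) ^ 2 / q) ^ e i := by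
    intro i
    simp only [hB, he]
    split_ifs with h0
    · conv_lhs => rw [← Int.natAbs_of_nonneg h0]
      rw [zpow_natCast]
    · push Not at h0
      have h1 : p i = -((p i).natAbs : ℤ) := by omega
      conv_lhs => rw [h1]
      rw [zpow_neg, zpow_natCast, ← inv_pow]
      congr 1
      have h2 := hmul i
      rw [inv_div, div_eq_div_iff (pow_ne_zero _ (hal0 i)) hq0]
      rw [← h2]
      ring
  have hThB : Th q al P = (∏ i ∈ range g, (B i : ℂ) ^ e i) ^ 2 / (q : ℂ) ^ ∑ i ∈ range g, e i := by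
    have h1 : Th q al P = ∏ i ∈ range g, ((al i : ℂ) ^ 2 / q) ^ p i := by
      rw [Th]
      refine prod_subset ?_ ?_
      · intro i hi
        rw [mem_range]
        exact (le_natDegree_of_mem_supp i hi).trans_lt hP
      · intro i _ hi
        rw [notMem_support_iff] at hi
        rw [hi, zpow_zero]
    rw [h1, prod_congr rfl fun i _ => hterm i]
    rw [← prod_pow, ← prod_pow_eq_pow_sum, ← prod_div_distrib]
    refine prod_congr rfl fun i _ => ?_
    rw [div_pow, ← pow_mul, ← pow_mul, mul_comm]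
  have hrel : (∏ i ∈ range g, (B i : ℂ) ^ e i) ^ (2 * M) = (q : ℂ) ^ (M * ∑ i ∈ range g, e i) := by
    rw [hThB, div_pow, div_eq_one_iff_eq (pow_ne_zero _ (pow_ne_zero _ hq0)), ← pow_mul,
      ← pow_mul] at hTh
    rw [hTh, mul_comm]
  have hmain := mod8i hRU ρ h.odd_q (n := n) (range g) e B W hBW hM hrel
  have heps : ((eps q : ℕ) : Om) ^ 2 = (eps q : ℕ) := by
    rw [eps]
    split_ifs <;> simp
  have hζ : ∀ i, (ζ ^ 2 ^ i) ^ n = 1 ∧ ζ ^ 2 ^ i ≠ 1 := by
    intro i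
    refine ⟨by rw [← pow_mul, mul_comm, pow_mul, h.zeta, one_pow], fun h1 => ?_⟩
    have h2 : orderOf ζ = n := by
      have := Fact.mk h.prime
      exact orderOf_eq_prime h.zeta h.zeta_ne
    have h3 := orderOf_dvd_of_pow_eq_one h1
    rw [h2] at h3
    have h4 := h.prime.dvd_of_dvd_pow h3
    have h5 := Nat.le_of_dvd (by norm_num) h4
    have h6 := h.prime.two_le
    have h7 := h.two_g
    omega
  have hvw : ∀ i, ρ (v i) + ρ (v i) ^ 2 = ρ (w i) + ρ (w i) ^ 2 := by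
    intro i
    rw [h.red_v i, h.red_w i, zz_inv h.two_g r h.sym (hζ i).1 (hζ i).2]
    have h2 : (2 : Om) = 0 := CharTwo.two_eq_zero
    linear_combination heps + (ZZ n r (ζ ^ 2 ^ i) * (eps q : Om) + (eps q : Om)) * h2
  have hWw : ∀ i, ρ (W i) + ρ (W i) ^ 2 = ρ (w i) + ρ (w i) ^ 2 := by
    intro i
    simp only [hW]
    split_ifs
    · rfl
    · exact hvw i
  have hcast : ∀ i, (e i : Om) = if Odd (P.coeff i) then 1 else 0 := by
    intro i
    rw [CharTwo.natCast_eq_ite]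
    have h1 : Even (e i) ↔ ¬ Odd (P.coeff i) := by
      rw [← Int.natAbs_odd, Nat.not_odd_iff_even]
    by_cases h2 : Odd (P.coeff i)
    · rw [if_pos h2, if_neg (by rw [h1]; exact fun h3 => h3 h2)]
    · rw [if_neg h2, if_pos (h1.2 h2)]
  have hsum : ∑ i ∈ range g, (e i : Om) * (ρ (W i) + ρ (W i) ^ 2) =
      ∑ i ∈ (range g).filter (fun i => Odd (P.coeff i)), (ρ (w i) + ρ (w i) ^ 2) := by
    rw [sum_filter]
    refine sum_congr rfl fun i _ => ?_
    rw [hWw, hcast]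
    split_ifs <;> simp
  rw [← hsum, hmain]
  push_cast
  congr 1
  rw [sum_congr rfl fun i _ => hcast i, sum_boole]

end Pool.Agent.Work.TL
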